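import Pool.Agent.Helper4.GJ.HVR

/-! Module DFM: the second derivative in a critical direction. -/

set_option autoImplicit false

open Finset MeasureTheory Filter Topology Matrix
open scoped ENNReal ContDiff

namespace Pool.Agent.Helper44.GJ

open Pool.Agent.Helper44.GF Pool.Agent.Helper44.GN Pool.Agent.Helper44.GH

namespace DFM

open HVR

variable {n m : ℕ}

/-- The derivative of the coordinates of a linear map along a line. -/
theorem dmv (W : Matrix (Fin n) (Fin m) ℝ) (x h : Fin m → ℝ) (i : Fin n) :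
    HasDerivAt (fun r : ℝ => W.mulVec (x + r • h) i) (W.mulVec h i) 0 := by
  have e3 : (fun r : ℝ => W.mulVec (x + r • h) i)
      = fun r : ℝ => W.mulVec x i + r * W.mulVec h i := by
    funext r
    rw [Matrix.mulVec_add, Matrix.mulVec_smul, Pi.add_apply, Pi.smul_apply, smul_eq_mul]
  rw [e3]
  have e4 := ((hasDerivAt_id (0 : ℝ)).mul_const (W.mulVec h i)).const_add (W.mulVec x i)
  rw [one_mul] at e4
  exact e4

/-- The derivative of `hz` along a line. -/
theorem dhz (hG : ST_GD) {p : ℝ} (hp1 : 2 < p) (hp2 : p ≤ 3) (V Z : Matrix (Fin n) (Fin m) ℝ)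
    (x h : Fin m → ℝ) : HasDerivAt (fun r : ℝ => hz p V Z (x + r • h))
      (∑ i, (g2 p (V.mulVec x i) * V.mulVec h i * Z.mulVec x i
        + g1 p (V.mulVec x i) * Z.mulVec h i)) 0 := by
  obtain ⟨-, hdg1, -⟩ := hG p hp1 hp2
  have e1 : ∀ i, HasDerivAt (fun r : ℝ => g1 p (V.mulVec (x + r • h) i)
      * Z.mulVec (x + r • h) i)
      (g2 p (V.mulVec x i) * V.mulVec h i * Z.mulVec x i
        + g1 p (V.mulVec x i) * Z.mulVec h i) 0 := by
    intro i
    have e5 : HasDerivAt (fun r : ℝ => g1 p (V.mulVec (x + r • h) i))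
        (g2 p (V.mulVec x i) * V.mulVec h i) 0 := by
      have e6 := hdg1 (V.mulVec (x + (0 : ℝ) • h) i)
      have e7 := e6.comp (0 : ℝ) (dmv V x h i)
      rw [zero_smul, add_zero] at e7
      exact e7
    have e8 := e5.mul (dmv Z x h i)
    rw [zero_smul, add_zero] at e8
    exact e8
  unfold hz
  exact HasDerivAt.fun_sum fun i _ => e1 i

/-- Integration by parts for functions of polynomial growth. -/
theorem ibp (hB : ST_IBP) {p : ℝ} (hp1 : 2 < p) (hp2 : p ≤ 3) {V : Matrix (Fin n) (Fin m) ℝ}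
    (hV : Function.Injective V.mulVec) (h : Fin m → ℝ) {F F' : (Fin m → ℝ) → ℝ}
    (hd : ∀ x, HasDerivAt (fun r : ℝ => F (x + r • h)) (F' x) 0) (hF : PG F) (hF' : PG F') :
    IE p V F' = IE p V (fun x => F x * ∑ i, g1 p (V.mulVec x i) * V.mulVec h i) := by
  obtain ⟨hc, C, k, hC, hb⟩ := hF
  obtain ⟨hc', C', k', hC', hb'⟩ := hF'
  refine hB n m p V hp1 hp2 hV h F F' (C + C') (k + k') hd hc hc' (fun x => ?_) (fun x => ?_)
  · have h1 : (1 : ℝ) ≤ 1 + ‖x‖ := by linarith [norm_nonneg x]
    refine (hb x).trans ?_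
    refine mul_le_mul (by linarith) (pow_le_pow_right₀ h1 (Nat.le_add_right _ _)) (by positivity) (by linarith)
  · have h1 : (1 : ℝ) ≤ 1 + ‖x‖ := by linarith [norm_nonneg x]
    refine (hb' x).trans ?_
    refine mul_le_mul (by linarith) (pow_le_pow_right₀ h1 (Nat.le_add_left _ _)) (by positivity) (by linarith)

/-- Additivity. -/
theorem ie_add (h0 : ST_IN0) {p : ℝ} {V : Matrix (Fin n) (Fin m) ℝ} (hp : 1 ≤ p)
    (hV : Function.Injective V.mulVec) {f g : (Fin m → ℝ) → ℝ} (hf : PG f) (hg : PG g) :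
    IE p V (fun x => f x + g x) = IE p V f + IE p V g := by
  unfold IE
  rw [← integral_add (hf.int h0 hp hV) (hg.int h0 hp hV)]
  refine integral_congr_ae (Filter.Eventually.of_forall fun x => ?_)
  show (f x + g x) * ee p V x = f x * ee p V x + g x * ee p V x
  ring

/-- Homogeneity. -/
theorem ie_smul {p : ℝ} {V : Matrix (Fin n) (Fin m) ℝ} (c : ℝ) (f : (Fin m → ℝ) → ℝ) :
    IE p V (fun x => c * f x) = c * IE p V f := by
  unfold IE
  rw [← integral_const_mul]
  refine integral_congr_ae (Filter.Eventually.of_forall fun x => ?_)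
  show c * f x * ee p V x = c * (f x * ee p V x)
  ring

/-- Finite sums. -/
theorem ie_sum (h0 : ST_IN0) {p : ℝ} {V : Matrix (Fin n) (Fin m) ℝ} (hp : 1 ≤ p)
    (hV : Function.Injective V.mulVec) {ι : Type} (s : Finset ι) {f : ι → (Fin m → ℝ) → ℝ}
    (hf : ∀ i, PG (f i)) :
    IE p V (fun x => ∑ i ∈ s, f i x) = ∑ i ∈ s, IE p V (f i) := by
  unfold IE
  rw [← integral_finsetSum s fun i _ => (hf i).int h0 hp hV]
  refine integral_congr_ae (Filter.Eventually.of_forall fun x => ?_)
  show (∑ i ∈ s, f i x) * ee p V x = ∑ i ∈ s, f i x * ee p V x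
  rw [sum_mul]

/-- `gz` is a sum over the rows. -/
theorem gz_dot (p : ℝ) (V Z : Matrix (Fin n) (Fin m) ℝ) (x y : Fin m → ℝ) :
    ∑ b, gz p V Z x b * y b = ∑ i, g1 p (V.mulVec x i) * Z.mulVec y i := by
  unfold gz Matrix.mulVec dotProduct
  simp only [sum_mul, mul_sum]
  rw [sum_comm]
  refine sum_congr rfl fun i _ => sum_congr rfl fun b _ => ?_
  ring

theorem pgz (hG : ST_GD) {p : ℝ} (hp1 : 2 < p) (hp2 : p ≤ 3) (V Z : Matrix (Fin n) (Fin m) ℝ)
    (b : Fin m) : PG (fun x => gz p V Z x b) :=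
  PG.sum _ fun i => ((PG.mv V i).g1 hG hp1 hp2).mul (PG.const _)

theorem phz (hG : ST_GD) {p : ℝ} (hp1 : 2 < p) (hp2 : p ≤ 3) (V Z : Matrix (Fin n) (Fin m) ℝ) :
    PG (hz p V Z) :=
  PG.sum _ fun i => ((PG.mv V i).g1 hG hp1 hp2).mul (PG.mv Z i)

theorem pgg (hG : ST_GD) {p : ℝ} (hp1 : 2 < p) (hp2 : p ≤ 3) (V Z W : Matrix (Fin n) (Fin m) ℝ) :
    PG (fun x => ∑ i, g2 p (V.mulVec x i) * (Z.mulVec x i * W.mulVec x i)) :=
  PG.sum _ fun i => ((PG.mv V i).g2 hG hp1 hp2).mul ((PG.mv Z i).mul (PG.mv W i))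

/-- The matrix of `V * N`. -/
theorem mulVec_VN (V : Matrix (Fin n) (Fin m) ℝ) (N : Matrix (Fin m) (Fin m) ℝ) (x : Fin m → ℝ)
    (i : Fin n) : (V * N).mulVec x i = V.mulVec (N.mulVec x) i := by
  rw [Matrix.mulVec_mulVec]

/-- The main identity. -/
theorem main (hB : ST_IBP) (hG : ST_GD) (h0 : ST_IN0) {p : ℝ} (hp1 : 2 < p) (hp2 : p ≤ 3)
    {V : Matrix (Fin n) (Fin m) ℝ} (hV : Function.Injective V.mulVec)
    (Z : Matrix (Fin n) (Fin m) ℝ) (N : Matrix (Fin m) (Fin m) ℝ) :
    IE p V (fun x => hz p V Z x * hz p V (V * N) x)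
      = IE p V (fun x => ∑ i, g2 p (V.mulVec x i) * (Z.mulVec x i * (V * N).mulVec x i))
        + ∑ a, ∑ b, N b a * IE p V (fun x => x a * gz p V Z x b)
        + N.trace * IE p V (hz p V Z) := by
  have hp : (1 : ℝ) ≤ p := by linarith
  have pN : ∀ a, PG (fun x : Fin m → ℝ => N.mulVec x a) := fun a => PG.mv N a
  have pC : ∀ (W : Matrix (Fin n) (Fin m) ℝ) (a : Fin m) (i : Fin n),
      PG (fun _ : Fin m → ℝ => W.mulVec (Pi.single a 1) i) := fun W a i => PG.const _
  have pD : ∀ a : Fin m, PG (fun x => ∑ i, (g2 p (V.mulVec x i) * V.mulVec (Pi.single a 1) i * Z.mulVec x i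
        + g1 p (V.mulVec x i) * Z.mulVec (Pi.single a 1) i)) := fun a =>
    PG.sum _ fun i => (((((PG.mv V i).g2 hG hp1 hp2).mul (pC V a i)).mul (PG.mv Z i)).add
      (((PG.mv V i).g1 hG hp1 hp2).mul (pC Z a i)))
  have hN : ∀ a : Fin m, N.mulVec (Pi.single a 1) a = N a a := by
    intro a
    rw [Matrix.mulVec_single_one]
    rfl
  -- integration by parts in the direction `a`
  have k1 : ∀ a : Fin m, IE p V (fun x => (∑ i, (g2 p (V.mulVec x i) * V.mulVec (Pi.single a 1) i * Z.mulVec x i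
        + g1 p (V.mulVec x i) * Z.mulVec (Pi.single a 1) i)) * N.mulVec x a + hz p V Z x * N a a)
      = IE p V (fun x => (hz p V Z x * N.mulVec x a) * ∑ i, g1 p (V.mulVec x i) * V.mulVec (Pi.single a 1) i) := by
    intro a
    refine ibp hB hp1 hp2 hV (Pi.single a 1) (fun x => ?_) ((phz hG hp1 hp2 V Z).mul (pN a))
      (((pD a).mul (pN a)).add ((phz hG hp1 hp2 V Z).mul (PG.const _)))
    have k2 := (dhz hG hp1 hp2 V Z x (Pi.single a 1)).mul (dmv N x (Pi.single a 1) a)
    rw [zero_smul, add_zero, hN a] at k2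
    exact k2
  -- sum over the directions
  have k3 : IE p V (fun x => hz p V Z x * hz p V (V * N) x)
      = ∑ a, IE p V (fun x => (hz p V Z x * N.mulVec x a)
          * ∑ i, g1 p (V.mulVec x i) * V.mulVec (Pi.single a 1) i) := by
    rw [← ie_sum h0 hp hV univ fun a => ((phz hG hp1 hp2 V Z).mul (pN a)).mul
      (PG.sum _ fun i => ((PG.mv V i).g1 hG hp1 hp2).mul (pC V a i))]
    congr 1
    funext x
    have e1 : ∀ a, ∑ i, g1 p (V.mulVec x i) * V.mulVec (Pi.single a 1) i = gz p V V x a := by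
      intro a
      unfold gz
      refine sum_congr rfl fun i _ => ?_
      rw [Matrix.mulVec_single_one]
      rfl
    have e2 : hz p V (V * N) x = ∑ b, gz p V V x b * N.mulVec x b := by
      rw [gz_dot]
      unfold hz
      refine sum_congr rfl fun i _ => ?_
      rw [mulVec_VN]
    rw [e2, mul_sum]
    refine sum_congr rfl fun a _ => ?_
    rw [e1 a]
    ring
  have k4 : ∀ x : Fin m → ℝ, ∑ a, ((∑ i, (g2 p (V.mulVec x i) * V.mulVec (Pi.single a 1) i * Z.mulVec x i
        + g1 p (V.mulVec x i) * Z.mulVec (Pi.single a 1) i)) * N.mulVec x a + hz p V Z x * N a a)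
      = ∑ i, g2 p (V.mulVec x i) * (Z.mulVec x i * (V * N).mulVec x i)
        + ∑ a, ∑ b, N b a * (x a * gz p V Z x b) + N.trace * hz p V Z x := by
    intro x
    rw [sum_add_distrib, ← mul_sum]
    have e1 : ∀ (W : Matrix (Fin n) (Fin m) ℝ) (a : Fin m) (i : Fin n),
        W.mulVec (Pi.single a 1) i = W i a := by
      intro W a i
      rw [Matrix.mulVec_single_one]
      rfl
    have e2 : ∑ a, N a a = N.trace := rfl
    have e3 : ∑ a, (∑ i, (g2 p (V.mulVec x i) * V.mulVec (Pi.single a 1) i * Z.mulVec x i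
        + g1 p (V.mulVec x i) * Z.mulVec (Pi.single a 1) i)) * N.mulVec x a
        = ∑ i, g2 p (V.mulVec x i) * (Z.mulVec x i * (V * N).mulVec x i)
          + ∑ b, gz p V Z x b * N.mulVec x b := by
      have e4 : ∀ a, (∑ i, (g2 p (V.mulVec x i) * V.mulVec (Pi.single a 1) i * Z.mulVec x i
          + g1 p (V.mulVec x i) * Z.mulVec (Pi.single a 1) i)) * N.mulVec x a
          = ∑ i, g2 p (V.mulVec x i) * Z.mulVec x i * (V i a * N.mulVec x a) + gz p V Z x a * N.mulVec x a := by
        intro a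
        unfold gz
        rw [sum_mul, sum_mul, ← sum_add_distrib]
        refine sum_congr rfl fun i _ => ?_
        rw [e1, e1]
        ring
      rw [sum_congr rfl fun a _ => e4 a, sum_add_distrib, sum_comm]
      congr 1
      refine sum_congr rfl fun i _ => ?_
      rw [← mul_sum, mulVec_VN, mul_assoc]
      rfl
    have e5 : ∑ b, gz p V Z x b * N.mulVec x b = ∑ a, ∑ b, N b a * (x a * gz p V Z x b) := by
      rw [sum_comm]
      refine sum_congr rfl fun b _ => ?_
      have e6 : N.mulVec x b = ∑ a, N b a * x a := rfl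
      rw [e6, mul_sum]
      refine sum_congr rfl fun a _ => ?_
      ring
    rw [e3, e5, e2]
    ring
  have k5 : ∑ a, IE p V (fun x => (∑ i, (g2 p (V.mulVec x i) * V.mulVec (Pi.single a 1) i * Z.mulVec x i
        + g1 p (V.mulVec x i) * Z.mulVec (Pi.single a 1) i)) * N.mulVec x a + hz p V Z x * N a a)
      = IE p V (fun x => ∑ i, g2 p (V.mulVec x i) * (Z.mulVec x i * (V * N).mulVec x i)
        + ∑ a, ∑ b, N b a * (x a * gz p V Z x b) + N.trace * hz p V Z x) := by
    rw [← ie_sum h0 hp hV univ fun a => (((pD a).mul (pN a)).add ((phz hG hp1 hp2 V Z).mul (PG.const _)))]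
    congr 1
    funext x
    exact k4 x
  have pab : ∀ a b : Fin m, PG (fun x : Fin m → ℝ => N b a * (x a * gz p V Z x b)) := fun a b =>
    (PG.const _).mul ((PG.coord a).mul (pgz hG hp1 hp2 V Z b))
  rw [k3, ← sum_congr rfl fun a _ => k1 a, k5,
    ie_add h0 hp hV ((pgg hG hp1 hp2 V Z (V * N)).add (PG.sum _ fun a => PG.sum _ fun b => pab a b))
      ((PG.const _).mul (phz hG hp1 hp2 V Z)),
    ie_add h0 hp hV (pgg hG hp1 hp2 V Z (V * N)) (PG.sum _ fun a => PG.sum _ fun b => pab a b),
    ie_smul, ie_sum h0 hp hV univ fun a => PG.sum _ fun b => pab a b]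
  congr 2
  refine sum_congr rfl fun a _ => ?_
  rw [ie_sum h0 hp hV univ fun b => pab a b]
  exact sum_congr rfl fun b _ => ie_smul _ _

end DFM

open HVR DFM in
theorem st_DFM (hB : ST_IBP) (hG : ST_GD) (h0 : ST_IN0) : ST_DFM := by
  intro n m p V Z N hp1 hp2 hV hcr
  have hp : (1 : ℝ) ≤ p := by linarith
  obtain ⟨hM, hee, -⟩ := h0 n m p V hp hV
  have e1 : ∀ (W : Matrix (Fin n) (Fin m) ℝ) (a : Fin m) (i : Fin n),
      W.mulVec (Pi.single a 1) i = W i a := by
    intro W a i
    rw [Matrix.mulVec_single_one]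
    rfl
  -- the moments of `gz p V V`
  have m1 : ∀ a b : Fin m, IE p V (fun x => x a * gz p V V x b) = (if a = b then 1 else 0) * Mp p V := by
    intro a b
    have h1 := ibp hB hp1 hp2 hV (Pi.single b 1) (F := fun x => x a)
      (F' := fun _ => if a = b then 1 else 0) (fun x => by
        have h2 : (fun r : ℝ => (x + r • (Pi.single b 1 : Fin m → ℝ)) a) =
            fun r => x a + r * (if a = b then 1 else 0) := by
          funext r
          rw [Pi.add_apply, Pi.smul_apply, smul_eq_mul, Pi.single_apply]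
        rw [h2]
        have h3 := ((hasDerivAt_id (0 : ℝ)).mul_const (if a = b then (1 : ℝ) else 0)).const_add (x a)
        rw [one_mul] at h3
        exact h3) (PG.coord a) (PG.const _)
    have h2 : (fun x : Fin m → ℝ => x a * ∑ i, g1 p (V.mulVec x i) * V.mulVec (Pi.single b 1) i) =
        fun x => x a * gz p V V x b := by
      funext x
      unfold gz
      congr 1
      exact sum_congr rfl fun i _ => by rw [e1]
    rw [h2] at h1
    rw [← h1]
    unfold IE Mp
    exact integral_const_mul _ _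
  -- `gz` for `V * N`
  have g1' : ∀ (N' : Matrix (Fin m) (Fin m) ℝ) (x : Fin m → ℝ) (b : Fin m),
      gz p V (V * N') x b = ∑ c, N' c b * gz p V V x c := by
    intro N' x b
    unfold gz
    simp only [mul_sum]
    rw [sum_comm]
    refine sum_congr rfl fun i _ => ?_
    rw [Matrix.mul_apply, mul_sum]
    refine sum_congr rfl fun c _ => ?_
    ring
  have m2 : ∀ (N' : Matrix (Fin m) (Fin m) ℝ) (a b : Fin m),
      IE p V (fun x => x a * gz p V (V * N') x b) = Mp p V * N' a b := by
    intro N' a b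
    have h1 : (fun x : Fin m → ℝ => x a * gz p V (V * N') x b)
        = fun x => ∑ c, N' c b * (x a * gz p V V x c) := by
      funext x
      rw [g1', mul_sum]
      exact sum_congr rfl fun c _ => by ring
    rw [h1, ie_sum h0 hp hV univ fun c => (PG.const _).mul ((PG.coord a).mul (pgz hG hp1 hp2 V V c))]
    have h2 : ∀ c, IE p V (fun x => N' c b * (x a * gz p V V x c)) = N' c b * ((if a = c then 1 else 0) * Mp p V) := by
      intro c
      rw [ie_smul, m1]
    rw [sum_congr rfl fun c _ => h2 c, Finset.sum_eq_single a]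
    · rw [if_pos rfl]
      ring
    · intro c _ hc
      rw [if_neg (Ne.symm hc)]
      ring
    · intro h
      exact absurd (mem_univ a) h
  -- the first claim
  have c1 : ∀ a b, IE p V (fun x => x a * gz p V Z x b) = -(Mp p V * N a b) := by
    intro a b
    have h1 := hcr a b
    have h2 : (fun x : Fin m → ℝ => x a * gz p V (Z + V * N) x b)
        = fun x => x a * gz p V Z x b + x a * gz p V (V * N) x b := by
      funext x
      have h3 : gz p V (Z + V * N) x b = gz p V Z x b + gz p V (V * N) x b := by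
        unfold gz
        rw [← sum_add_distrib]
        refine sum_congr rfl fun i _ => ?_
        rw [Matrix.add_apply]
        ring
      rw [h3]
      ring
    rw [h2, ie_add h0 hp hV ((PG.coord a).mul (pgz hG hp1 hp2 V Z b))
      ((PG.coord a).mul (pgz hG hp1 hp2 V (V * N) b)), m2] at h1
    linarith
  -- the mean of `hz`
  have mh : ∀ W : Matrix (Fin n) (Fin m) ℝ,
      IE p V (hz p V W) = ∑ a, IE p V (fun x => x a * gz p V W x a) := by
    intro W
    rw [← ie_sum h0 hp hV univ fun a => (PG.coord a).mul (pgz hG hp1 hp2 V W a)]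
    congr 1
    funext x
    have h1 := gz_dot p V W x x
    show ∑ i, g1 p (V.mulVec x i) * W.mulVec x i = _
    rw [← h1]
    exact sum_congr rfl fun a _ => by ring
  have mh1 : IE p V (hz p V Z) = -(Mp p V * N.trace) := by
    rw [mh]
    have h1 : N.trace = ∑ a, N a a := rfl
    rw [h1, mul_sum, ← sum_neg_distrib]
    exact sum_congr rfl fun a _ => c1 a a
  have mh2 : IE p V (hz p V (V * N)) = Mp p V * N.trace := by
    rw [mh]
    have h1 : N.trace = ∑ a, N a a := rfl
    rw [h1, mul_sum]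
    exact sum_congr rfl fun a _ => m2 N a a
  have t1 := DFM.main hB hG h0 hp1 hp2 hV Z N
  have t2 := DFM.main hB hG h0 hp1 hp2 hV (V * N) N
  have s1 : ∑ a, ∑ b, N b a * IE p V (fun x => x a * gz p V Z x b) = -(Mp p V * (N * N).trace) := by
    have h1 : (N * N).trace = ∑ a, ∑ b, N a b * N b a := by
      unfold Matrix.trace
      refine sum_congr rfl fun a _ => ?_
      rw [Matrix.diag_apply, Matrix.mul_apply]
    rw [h1, mul_sum, ← sum_neg_distrib]
    refine sum_congr rfl fun a _ => ?_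
    rw [mul_sum, ← sum_neg_distrib]
    refine sum_congr rfl fun b _ => ?_
    rw [c1]
    ring
  have s2 : ∑ a, ∑ b, N b a * IE p V (fun x => x a * gz p V (V * N) x b) = Mp p V * (N * N).trace := by
    have h1 : (N * N).trace = ∑ a, ∑ b, N a b * N b a := by
      unfold Matrix.trace
      refine sum_congr rfl fun a _ => ?_
      rw [Matrix.diag_apply, Matrix.mul_apply]
    rw [h1, mul_sum]
    refine sum_congr rfl fun a _ => ?_
    rw [mul_sum]
    refine sum_congr rfl fun b _ => ?_
    rw [m2]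
    ring
  rw [s1, mh1] at t1
  rw [s2, mh2] at t2
  refine ⟨c1, ?_⟩
  -- the expansion
  have x1 : M2 p V (Z + V * N)
      = IE p V (fun x => hz p V Z x ^ 2) + 2 * IE p V (fun x => hz p V Z x * hz p V (V * N) x)
        + IE p V (fun x => hz p V (V * N) x * hz p V (V * N) x)
        + (-1) * IE p V (fun x => ∑ i, g2 p (V.mulVec x i) * (Z.mulVec x i) ^ 2)
        + (-2) * IE p V (fun x => ∑ i, g2 p (V.mulVec x i) * (Z.mulVec x i * (V * N).mulVec x i))
        + (-1) * IE p V (fun x => ∑ i, g2 p (V.mulVec x i) * ((V * N).mulVec x i * (V * N).mulVec x i)) := by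
    have pz := phz hG hp1 hp2 V Z
    have pn := phz hG hp1 hp2 V (V * N)
    have q2 : PG (fun x => ∑ i, g2 p (V.mulVec x i) * (Z.mulVec x i) ^ 2) :=
      PG.sum _ fun i => ((PG.mv V i).g2 hG hp1 hp2).mul (PG.mv Z i).sq
    have a1 := pz.sq
    have a2 := (PG.const (m := m) 2).mul (pz.mul pn)
    have a3 := pn.mul pn
    have a4 := (PG.const (m := m) (-1)).mul q2
    have a5 := (PG.const (m := m) (-2)).mul (pgg hG hp1 hp2 V Z (V * N))
    have a6 := (PG.const (m := m) (-1)).mul (pgg hG hp1 hp2 V (V * N) (V * N))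
    rw [← ie_smul 2, ← ie_smul (-1), ← ie_smul (-2), ← ie_smul (-1),
      ← ie_add h0 hp hV a1 a2, ← ie_add h0 hp hV (a1.add a2) a3,
      ← ie_add h0 hp hV ((a1.add a2).add a3) a4,
      ← ie_add h0 hp hV (((a1.add a2).add a3).add a4) a5,
      ← ie_add h0 hp hV ((((a1.add a2).add a3).add a4).add a5) a6]
    unfold M2
    congr 1
    funext x
    have b1 : hz p V (Z + V * N) x = hz p V Z x + hz p V (V * N) x := by
      unfold hz
      rw [← sum_add_distrib]
      refine sum_congr rfl fun i _ => ?_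
      rw [Matrix.add_mulVec, Pi.add_apply]
      ring
    have b2 : ∑ i, g2 p (V.mulVec x i) * ((Z + V * N).mulVec x i) ^ 2
        = ∑ i, g2 p (V.mulVec x i) * (Z.mulVec x i) ^ 2
          + 2 * ∑ i, g2 p (V.mulVec x i) * (Z.mulVec x i * (V * N).mulVec x i)
          + ∑ i, g2 p (V.mulVec x i) * ((V * N).mulVec x i * (V * N).mulVec x i) := by
      rw [mul_sum, ← sum_add_distrib, ← sum_add_distrib]
      refine sum_congr rfl fun i _ => ?_
      rw [Matrix.add_mulVec, Pi.add_apply]
      ring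
    rw [b1, b2]
    ring
  rw [x1, t1, t2, mh1]
  ring

end Pool.Agent.Helper44.GJ
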